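import Pool.Agent.Helper28.NT.Defs4

/-!
# NETS: the cubic of a point of the discriminant curve over the field of the point does not contain
the generic point of the plane
-/

set_option autoImplicit false
set_option linter.unusedSectionVars false

namespace Pool.Agent.NT28

open MvPolynomial

universe u

theorem aeval_scale9 {k A : Type*} [Field k] [CommRing A] [Algebra k A] {n : ℕ} {σ : Type*}
    [Fintype σ] {P : MvPolynomial σ k} (hP : P.IsHomogeneous n) (c : A) (x : σ → A) :
    aeval (fun i => c * x i) P = c ^ n * aeval x P := by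
  rw [aeval_def, eval₂_eq', aeval_def, eval₂_eq', Finset.mul_sum]
  refine Finset.sum_congr rfl fun d hd => ?_
  have h1 : ∑ i, d i = n := by
    have h := hP (mem_support_iff.1 hd)
    rw [Finsupp.weight_apply, Finsupp.sum_fintype _ _ (by simp)] at h
    simpa using h
  have h2 : ∏ i, (c * x i) ^ d i = c ^ n * ∏ i, x i ^ d i := by
    rw [← h1, ← Finset.prod_pow_eq_pow_sum, ← Finset.prod_mul_distrib]
    exact Finset.prod_congr rfl fun i _ => mul_pow _ _ _
  rw [h2]
  ring

/-- a form vanishing at the generic point `(s : t : 1)` is zero -/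
theorem form_zero9 {k R : Type*} [Field k] [Infinite k] [Field R] [Algebra k R]
    {s t : R} (st : AlgebraicIndependent k ![s, t]) {n : ℕ} {P : MvPolynomial (Fin 3) k}
    (hP : P.IsHomogeneous n) (h : aeval ![s, t, 1] P = 0) : P = 0 := by
  -- dehomogenisation
  set P' : MvPolynomial (Fin 2) k := aeval ![X 0, X 1, 1] P with hP'
  have h1 : aeval ![s, t] P' = 0 := by
    rw [← h, hP', ← AlgHom.comp_apply, comp_aeval]
    congr 2
    funext i
    fin_cases i <;> simp
  have h2 : P' = 0 := by
    apply st
    rw [h1, map_zero]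
  have h3 : ∀ x y : k, aeval ![x, y, 1] P = 0 := by
    intro x y
    have h4 : aeval ![x, y] P' = 0 := by rw [h2, map_zero]
    rw [← h4, hP', ← AlgHom.comp_apply, comp_aeval]
    congr 2
    funext i
    fin_cases i <;> simp
  have h5 : P * X 2 = 0 := by
    apply MvPolynomial.funext
    intro p
    rw [map_mul, map_zero, eval_X]
    by_cases h6 : p 2 = 0
    · rw [h6, mul_zero]
    · have h7 := aeval_scale9 hP (p 2) ![p 0 / p 2, p 1 / p 2, 1]
      rw [h3, mul_zero] at h7
      have h8 : (fun i => p 2 * (![p 0 / p 2, p 1 / p 2, 1] : Fin 3 → k) i) = p := by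
        funext i
        fin_cases i
        · simp [mul_div_cancel₀, h6]
        · simp [mul_div_cancel₀, h6]
        · simp
      rw [h8] at h7
      have h9 : eval p P = 0 := by
        rw [← h7]
        rfl
      rw [h9, zero_mul]
  rcases mul_eq_zero.1 h5 with h6 | h6
  · exact h6
  · exact absurd h6 (X_ne_zero 2)

/-- BLOCK F5. -/
theorem nc (hL2 : StmtL2.{u}) {k R : Type u} [Field k] [IsAlgClosed k] [CharZero k] [Field R]
    [Algebra k R] {Q : Fin 3 → Matrix (Fin 3) (Fin 3) k} (hQ : Smo Q)
    {f : Fin 3 → MvPolynomial (Fin 3) k} (hom : ∀ i, (f i).IsHomogeneous 3)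
    (ind : ∀ e : Fin 3 → k, fe f e = 0 → e = 0) {s t : R} (st : AlgebraicIndependent k ![s, t])
    {e : Fin 3 → R} (he : ∀ i, e i ∈ IntermediateField.adjoin k {s, t}) (h0 : e ≠ 0)
    (hd : dl (ext R Q) e = 0) : ∑ i, e i * aeval ![s, t, 1] (f i) ≠ 0 := by
  obtain ⟨e', u, he', hu⟩ := hL2 k R Q hQ s t st e he h0 hd
  have hu0 : u ≠ 0 := by
    rintro rfl
    apply h0
    funext i
    rw [hu i, zero_mul]
    rfl
  have h1 : ∑ i, e i * aeval ![s, t, 1] (f i) = u * aeval ![s, t, 1] (fe f e') := by
    rw [fe, map_sum, Finset.mul_sum]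
    refine Finset.sum_congr rfl fun i _ => ?_
    rw [map_mul, aeval_C, hu i, mul_assoc]
  have h2 : (fe f e').IsHomogeneous 3 := by
    rw [fe]
    apply IsHomogeneous.sum
    intro i _
    exact (hom i).C_mul _
  rw [h1]
  intro h3
  rcases mul_eq_zero.1 h3 with h4 | h4
  · exact hu0 h4
  · exact he' (ind e' (form_zero9 st h2 h4))

end Pool.Agent.NT28
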